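import Pool.Agent.Mason77.Local

/-!
# The quadratic inequality `3 / 2 ≤ Phi` for all linear spaces which are not a line
-/

open Finset

set_option linter.unusedSectionVars false

namespace Pool.Agent.Mason77

variable {X Y : Type*} [Fintype X] [Fintype Y] {R : X → Y → Prop}

theorem kk_eq_card (y : Y) [DecidablePred fun x => R x y] :
    kk R y = ((univ.filter fun x => R x y).card : ℝ) := by
  classical
  unfold kk r
  rw [Finset.card_filter]
  push_cast
  refine Finset.sum_congr rfl fun x _ => ?_
  by_cases h : R x y <;> simp [h]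

/-- pairs of points -/
theorem Lin.sum_kk (H : Lin R) : ∑ y, kk R y * (kk R y - 1) =
    (Fintype.card X : ℝ) * (Fintype.card X - 1) := by
  have h1 := H.sum_sq (fun _ => 1)
  have e1 : ∀ y, xx R (fun _ => (1 : ℝ)) y = kk R y := by
    intro y; unfold xx kk; simp
  have e2 : ∑ x, tt R x = ∑ y, kk R y := by
    unfold tt kk; rw [Finset.sum_comm]
  simp only [e1, one_pow, mul_one, Finset.sum_const, Finset.card_univ, nsmul_eq_mul,
    Finset.sum_sub_distrib, e2] at h1
  have e3 : ∑ y, kk R y * (kk R y - 1) = ∑ y, kk R y ^ 2 - ∑ y, kk R y := by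
    rw [← Finset.sum_sub_distrib]
    refine Finset.sum_congr rfl fun y _ => ?_
    ring
  rw [e3, h1]
  ring

/-- every line misses a point -/
def Thick (R : X → Y → Prop) : Prop := ∀ y, ∃ x, ¬ R x y

theorem exists_line_off (H : Lin R) (hN : Nonempty Y) (hT : Thick R) (p : X) : ∃ y, ¬ R p y := by
  by_contra hcon
  push Not at hcon
  obtain ⟨l⟩ := hN
  obtain ⟨c, hc⟩ := hT l
  obtain ⟨a, b, hab, ha, hb⟩ := H.two l
  obtain ⟨m, hm1, hm2⟩ := H.line a c (by rintro rfl; exact hc ha)
  obtain ⟨m', hm1', hm2'⟩ := H.line b c (by rintro rfl; exact hc hb)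
  have hpm := hcon m
  have hpl := hcon l
  have hpm' := hcon m'
  by_cases hpa : p = a
  · subst hpa
    have : l = m' := H.uniq p b l m' hab ha hb hpm' hm1'
    exact hc (this ▸ hm2')
  · have : l = m := H.uniq p a l m hpa hpl ha hpm hm1
    exact hc (this ▸ hm2)

/-- the theorem of de Bruijn and Erdős -/
theorem Lin.card_le (H : Lin R) (hN : Nonempty Y) (hT : Thick R) :
    Fintype.card X ≤ Fintype.card Y := by
  classical
  let _ : Membership X Y := ⟨fun y x => R x y⟩
  let _ : Configuration.HasLines X Y :=
    { exists_point := hT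
      exists_line := exists_line_off H hN hT
      eq_or_eq := by
        intro a b l l' h1 h2 h3 h4
        by_cases hab : a = b
        · exact Or.inl hab
        · exact Or.inr (H.uniq a b l l' hab h1 h2 h3 h4)
      mkLine := fun {a b} h => (H.line a b h).choose
      mkLine_ax := fun {a b} h => (H.line a b h).choose_spec }
  exact Configuration.HasLines.card_le X Y

/-- two different lines have at most one common point -/
theorem Lin.add_le (H : Lin R) {y z : Y} (hyz : y ≠ z) : kk R y + kk R z ≤ Fintype.card X + 1 := by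
  classical
  rw [kk_eq_card, kk_eq_card]
  have h1 := Finset.card_union_add_card_inter (univ.filter fun x => R x y)
    (univ.filter fun x => R x z)
  have h2 : ((univ.filter fun x => R x y) ∪ (univ.filter fun x => R x z)).card ≤
      Fintype.card X := Finset.card_le_univ _
  have h3 : ((univ.filter fun x => R x y) ∩ (univ.filter fun x => R x z)).card ≤ 1 := by
    rw [Finset.card_le_one]
    intro a ha b hb
    simp only [mem_inter, mem_filter, mem_univ, true_and] at ha hb
    by_contra hab
    exact hyz (H.uniq a b y z hab ha.1 hb.1 ha.2 hb.2)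
  have h4 : (univ.filter fun x => R x y).card + (univ.filter fun x => R x z).card ≤
      Fintype.card X + 1 := by omega
  exact_mod_cast h4

/-- Near-pencils. -/
theorem Lin.near_pencil (H : Lin R) (h : X → ℝ) (h0 : ∑ x, h x = 0) {L : Y} {q : X}
    (hq : ¬ R q L) (hL : ∀ x, x ≠ q → R x L) (hn : 3 ≤ Fintype.card X) :
    (3 : ℝ) / 2 ≤ Phi R h := by
  classical
  set n := Fintype.card X with hnd
  have hn' : (3 : ℝ) ≤ n := by exact_mod_cast hn
  -- the line `L`
  have hkL : kk R L = n - 1 := by
    unfold kk
    rw [← Finset.add_sum_erase _ _ (Finset.mem_univ q), r_not hq, zero_add]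
    rw [Finset.sum_congr rfl (g := fun _ => (1 : ℝ)) (fun x hx => r_of (hL x (by
      rw [mem_erase] at hx; exact hx.1)))]
    rw [Finset.sum_const, nsmul_eq_mul, mul_one, Finset.card_erase_of_mem (Finset.mem_univ q),
      Finset.card_univ, Nat.cast_sub (by omega), ← hnd]
    norm_num
  have hxL : xx R h L = - h q := by
    unfold xx
    rw [← Finset.add_sum_erase _ _ (Finset.mem_univ q), r_not hq, zero_mul, zero_add]
    rw [Finset.sum_congr rfl (g := fun x => h x) (fun x hx => by
      rw [r_of (hL x (by rw [mem_erase] at hx; exact hx.1)), one_mul])]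
    rw [← Finset.add_sum_erase _ _ (Finset.mem_univ q)] at h0
    linarith
  -- the other lines
  have hoth : ∀ y, y ≠ L → R q y := by
    intro y hy
    by_contra hcon
    obtain ⟨a, b, hab, ha, hb⟩ := H.two y
    refine hy (H.uniq a b y L hab ha hb (hL a ?_) (hL b ?_))
    · rintro rfl; exact hcon ha
    · rintro rfl; exact hcon hb
  have hk2 : ∀ y, y ≠ L → kk R y = 2 := by
    intro y hy
    have h1 := H.add_le hy
    rw [hkL] at h1
    have h2 := H.two_le y
    linarith
  -- the number of lines
  have hcard : (Fintype.card Y : ℝ) = n := by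
    have h1 := H.sum_kk
    rw [← Finset.add_sum_erase _ _ (Finset.mem_univ L)] at h1
    rw [Finset.sum_congr rfl (g := fun _ => (2 : ℝ)) (fun y hy => by
      rw [hk2 y (by rw [mem_erase] at hy; exact hy.1)]; norm_num)] at h1
    rw [Finset.sum_const, nsmul_eq_mul, Finset.card_erase_of_mem (Finset.mem_univ L),
      Finset.card_univ, Nat.cast_sub (Fintype.card_pos_iff.mpr ⟨L⟩), hkL] at h1
    push_cast at h1
    nlinarith
  -- the sum of the values over the other lines
  have hsum : ∑ y ∈ univ.erase L, xx R h y = (n - 2) * h q := by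
    have h1 : ∑ y, r R q y * xx R h y = (tt R q - 1) * h q := by
      have e1 : ∀ y, r R q y * xx R h y = ∑ x, h x * (r R q y * r R x y) := by
        intro y
        unfold xx
        rw [Finset.mul_sum]
        refine Finset.sum_congr rfl fun x _ => ?_
        ring
      rw [Finset.sum_congr rfl fun y _ => e1 y, Finset.sum_comm]
      have e2 : ∀ x, ∑ y, h x * (r R q y * r R x y) =
          h x + if q = x then (tt R q - 1) * h q else 0 := by
        intro x
        rw [← Finset.mul_sum]
        split_ifs with hqx
        · subst hqx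
          have : ∑ y, r R q y * r R q y = tt R q := by
            unfold tt
            refine Finset.sum_congr rfl fun y _ => ?_
            rw [← sq, r_sq]
          rw [this]; ring
        · rw [H.pair hqx]; ring
      rw [Finset.sum_congr rfl fun x _ => e2 x, Finset.sum_add_distrib, h0, Finset.sum_ite_eq,
        if_pos (Finset.mem_univ q), zero_add]
    have h2 : tt R q = n - 1 := by
      unfold tt
      rw [← Finset.add_sum_erase _ _ (Finset.mem_univ L), r_not hq, zero_add]
      rw [Finset.sum_congr rfl (g := fun _ => (1 : ℝ)) (fun y hy => r_of (hoth y (by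
        rw [mem_erase] at hy; exact hy.1)))]
      rw [Finset.sum_const, nsmul_eq_mul, mul_one, Finset.card_erase_of_mem (Finset.mem_univ L),
        Finset.card_univ, Nat.cast_sub (Fintype.card_pos_iff.mpr ⟨L⟩), hcard]
      norm_num
    rw [← Finset.add_sum_erase _ _ (Finset.mem_univ L), r_not hq, zero_mul, zero_add, h2] at h1
    rw [Finset.sum_congr rfl (g := fun y => xx R h y) (fun y hy => by
      rw [r_of (hoth y (by rw [mem_erase] at hy; exact hy.1)), one_mul])] at h1
    rw [h1]; ring
  have hcardE : ((univ.erase L).card : ℝ) = n - 1 := by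
    rw [Finset.card_erase_of_mem (Finset.mem_univ L), Finset.card_univ,
      Nat.cast_sub (Fintype.card_pos_iff.mpr ⟨L⟩), hcard]
    norm_num
  have hcs : ((n - 2) * h q + (n - 1)) ^ 2 ≤
      (n - 1) * ∑ y ∈ univ.erase L, (xx R h y + 1) ^ 2 := by
    have h1 := sq_sum_le_card_mul_sum_sq (s := univ.erase L) (f := fun y => xx R h y + 1)
    rw [Finset.sum_add_distrib, hsum, Finset.sum_const, nsmul_eq_mul, mul_one, hcardE] at h1
    exact h1
  -- conclusion
  rw [H.Phi_eq h h0]
  have h1 := H.sq_le h h0 (by omega)
  rw [hcard, ← hnd] at h1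
  have e0 : (n : ℝ) ^ 2 / n = n := by
    have : (n : ℝ) ≠ 0 := by linarith
    field_simp
  rw [e0] at h1
  rw [← Finset.add_sum_erase _ _ (Finset.mem_univ L), hxL, hkL]
  have e1 : ∑ y ∈ univ.erase L, (xx R h y ^ 2 - (1 - xx R h y) ^ 2 / kk R y) =
      (∑ y ∈ univ.erase L, (xx R h y + 1) ^ 2) / 2 - ((n : ℝ) - 1) := by
    rw [← hcardE, Finset.sum_div]
    have : ((univ.erase L).card : ℝ) = ∑ _y ∈ univ.erase L, (1 : ℝ) := by simp
    rw [this, ← Finset.sum_sub_distrib]
    refine Finset.sum_congr rfl fun y hy => ?_
    rw [hk2 y (by rw [mem_erase] at hy; exact hy.1)]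
    ring
  rw [e1]
  set W := ∑ y ∈ univ.erase L, (xx R h y + 1) ^ 2 with hW
  set k : ℝ := (n : ℝ) - 1 with hk
  have hk2' : 2 ≤ k := by linarith
  have hk0 : 0 < k := by linarith
  have e2 : (n : ℝ) = k + 1 := by rw [hk]; ring
  have e3 : (n : ℝ) - 2 = k - 1 := by rw [hk]; ring
  rw [e3] at hcs
  have hW' : ((k - 1) * h q + k) ^ 2 / k ≤ W := by
    rw [div_le_iff₀ hk0]; linarith
  have key : (3 : ℝ) / 2 ≤ (k + 1) + (((-h q) ^ 2 - (1 - -h q) ^ 2 / k) +
      (((k - 1) * h q + k) ^ 2 / k / 2 - k)) := by
    have e4 : (k + 1) + (((-h q) ^ 2 - (1 - -h q) ^ 2 / k) +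
      (((k - 1) * h q + k) ^ 2 / k / 2 - k)) - 3 / 2 =
        (k + 1) * (h q ^ 2 + (k - 2) * (h q + 1) ^ 2) / (2 * k) := by
      field_simp
      ring
    have : 0 ≤ (k + 1) * (h q ^ 2 + (k - 2) * (h q + 1) ^ 2) / (2 * k) := by
      have : 0 ≤ k - 2 := by linarith
      positivity
    linarith
  rw [e2] at h1
  linarith

theorem term_ge {k : ℝ} (hk : 3 ≤ k) : (1 : ℝ) / 2 ≤ 1 - 1 / (k - 1) := by
  have : 1 / (k - 1) ≤ 1 / 2 := by
    rw [div_le_div_iff₀ (by linarith) (by norm_num)]
    linarith
  linarith

theorem term_nonneg {k : ℝ} (hk : 2 ≤ k) : (0 : ℝ) ≤ 1 - 1 / (k - 1) := by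
  have : 1 / (k - 1) ≤ 1 := by
    rw [div_le_one (by linarith)]
    linarith
  linarith

/-- sizes are natural numbers -/
theorem Lin.two_or_three (H : Lin R) (y : Y) : kk R y = 2 ∨ 3 ≤ kk R y := by
  classical
  have h := H.two_le y
  rw [kk_eq_card] at h ⊢
  have h1 : 2 ≤ (univ.filter fun x => R x y).card := by exact_mod_cast h
  rcases Nat.lt_or_ge 2 (univ.filter fun x => R x y).card with h2 | h2
  · right; exact_mod_cast h2
  · left
    have : (univ.filter fun x => R x y).card = 2 := le_antisymm h2 h1
    rw [this]; norm_num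

theorem Lin.local_centered (H : Lin R) (hN : Nonempty Y) (hT : Thick R) (h : X → ℝ)
    (h0 : ∑ x, h x = 0) : (3 : ℝ) / 2 ≤ Phi R h := by
  classical
  set n := Fintype.card X with hnd
  set t := Fintype.card Y with htd
  have hn : 3 ≤ n := by
    obtain ⟨l⟩ := hN
    obtain ⟨c, hc⟩ := hT l
    obtain ⟨a, b, hab, ha, hb⟩ := H.two l
    have h1 : ({a, b, c} : Finset X).card = 3 := by
      rw [Finset.card_eq_three]
      exact ⟨a, b, c, hab, fun h => hc (h ▸ ha), fun h => hc (h ▸ hb), rfl⟩
    rw [← h1]
    exact Finset.card_le_univ _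
  have hn' : (3 : ℝ) ≤ n := by exact_mod_cast hn
  have hnt : n ≤ t := H.card_le hN hT
  by_cases hNP : ∃ y, kk R y = n - 1
  · -- near-pencil
    obtain ⟨L, hL⟩ := hNP
    rw [kk_eq_card] at hL
    have hL2 : (univ.filter fun x => ¬ R x L).card = 1 := by
      have h1 := Finset.card_filter_add_card_filter_not (s := (univ : Finset X))
        (fun x => R x L)
      rw [Finset.card_univ, ← hnd] at h1
      have h2 : ((univ.filter fun x => R x L).card : ℝ) + 1 = n := by rw [hL]; ring
      have h3 : (univ.filter fun x => R x L).card + 1 = n := by exact_mod_cast h2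
      omega
    obtain ⟨q, hq⟩ := Finset.card_eq_one.mp hL2
    refine H.near_pencil h h0 (L := L) (q := q) ?_ ?_ hn
    · have : q ∈ univ.filter fun x => ¬ R x L := by rw [hq]; exact mem_singleton_self q
      exact (mem_filter.mp this).2
    · intro x hx
      by_contra hcon
      have : x ∈ univ.filter fun x => ¬ R x L := mem_filter.mpr ⟨mem_univ x, hcon⟩
      rw [hq, mem_singleton] at this
      exact hx this
  · -- all lines have at most `n - 2` points
    have hle : ∀ y, kk R y ≤ n - 2 := by
      intro y
      have h1 : kk R y ≠ n - 1 := fun h => hNP ⟨y, h⟩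
      obtain ⟨c, hc⟩ := hT y
      rw [kk_eq_card] at h1 ⊢
      have h2 : (univ.filter fun x => R x y).card < n := by
        refine Finset.card_lt_univ_of_notMem (x := c) ?_
        simp [hc]
      have h3 : (univ.filter fun x => R x y).card + 1 ≠ n := by
        intro h4
        apply h1
        have : (((univ.filter fun x => R x y).card : ℝ)) + 1 = n := by exact_mod_cast h4
        linarith
      have h5 : (univ.filter fun x => R x y).card + 2 ≤ n := by omega
      have : (((univ.filter fun x => R x y).card : ℝ)) + 2 ≤ n := by exact_mod_cast h5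
      linarith
    have hge := H.Phi_ge h h0 (by omega)
    rw [← hnd, ← htd] at hge
    have hsum : ∑ y, (1 - 1 / (kk R y - 1)) = (t : ℝ) - ∑ y, 1 / (kk R y - 1) := by
      rw [Finset.sum_sub_distrib]; simp [htd]
    have hmain : (t : ℝ) * (t - n) / n + ∑ y, (1 - 1 / (kk R y - 1)) ≤ Phi R h := by
      rw [hsum]
      refine le_trans (le_of_eq ?_) hge
      have : (n : ℝ) ≠ 0 := by linarith
      field_simp
      ring
    refine le_trans ?_ hmain
    have hnn : 0 ≤ ∑ y, (1 - 1 / (kk R y - 1)) :=
      Finset.sum_nonneg fun y _ => term_nonneg (H.two_le y)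
    have hpair := H.sum_kk
    rw [← hnd] at hpair
    rcases Nat.lt_or_ge (n + 1) t with h1 | h1
    · -- `t ≥ n + 2`
      have h2 : (n : ℝ) + 2 ≤ t := by exact_mod_cast h1
      have h3 : 2 ≤ (t : ℝ) * (t - n) / n := by
        rw [le_div_iff₀ (by linarith)]
        nlinarith
      linarith
    · rcases Nat.lt_or_ge n t with h2 | h2
      · -- `t = n + 1`
        have h3 : t = n + 1 := by omega
        have h3' : (t : ℝ) = n + 1 := by rw [h3]; push_cast; ring
        have h4 : 1 ≤ (t : ℝ) * (t - n) / n := by
          rw [le_div_iff₀ (by linarith), h3']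
          linarith
        have h5 : ∃ y, 3 ≤ kk R y := by
          by_contra hcon
          have h6 : ∀ y, kk R y = 2 := fun y =>
            (H.two_or_three y).resolve_right fun h => hcon ⟨y, h⟩
          have h7 : ∑ y, kk R y * (kk R y - 1) = 2 * t := by
            rw [Finset.sum_congr rfl (g := fun _ => (2 : ℝ)) (fun y _ => by
              rw [h6 y]; norm_num)]
            rw [Finset.sum_const, nsmul_eq_mul, Finset.card_univ, ← htd]
            ring
          rw [h7, h3'] at hpair
          have h8 : 2 * (n + 1) + n = n * n := by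
            have : 2 * ((n : ℝ) + 1) + n = n * n := by linarith
            exact_mod_cast this
          rcases Nat.lt_or_ge n 4 with h9 | h9
          · have : n = 3 := by omega
            rw [this] at h8
            omega
          · have : 4 * n ≤ n * n := Nat.mul_le_mul_right n h9
            omega
        obtain ⟨y0, hy0⟩ := h5
        have h6 : (1 : ℝ) / 2 ≤ ∑ y, (1 - 1 / (kk R y - 1)) :=
          (term_ge hy0).trans (Finset.single_le_sum
            (f := fun y => 1 - 1 / (kk R y - 1)) (fun y _ => term_nonneg (H.two_le y))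
            (Finset.mem_univ y0))
        linarith
      · -- `t = n`
        have h3 : t = n := le_antisymm h2 hnt
        have h3' : (t : ℝ) = n := by rw [h3]
        have h4 : (t : ℝ) * (t - n) / n = 0 := by rw [h3']; simp
        rw [h4, zero_add]
        set Lg : Finset Y := univ.filter fun y => 3 ≤ kk R y with hLg
        have hLgs : (Lg.card : ℝ) * (1 / 2) ≤ ∑ y, (1 - 1 / (kk R y - 1)) := by
          calc (Lg.card : ℝ) * (1 / 2) = ∑ _y ∈ Lg, (1 / 2 : ℝ) := by simp
            _ ≤ ∑ y ∈ Lg, (1 - 1 / (kk R y - 1)) := Finset.sum_le_sum fun y hy =>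
                term_ge (mem_filter.mp hy).2
            _ ≤ ∑ y, (1 - 1 / (kk R y - 1)) := Finset.sum_le_sum_of_subset_of_nonneg
                (Finset.subset_univ _) fun y _ _ => term_nonneg (H.two_le y)
        have hW : ∑ y ∈ Lg, (kk R y - 2) * (kk R y + 1) = (n : ℝ) * (n - 3) := by
          have e1 : ∑ y, (kk R y - 2) * (kk R y + 1) = (n : ℝ) * (n - 3) := by
            have e2 : ∀ y, (kk R y - 2) * (kk R y + 1) = kk R y * (kk R y - 1) - 2 := by
              intro y; ring
            rw [Finset.sum_congr rfl fun y _ => e2 y, Finset.sum_sub_distrib, hpair,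
              Finset.sum_const, nsmul_eq_mul, Finset.card_univ, ← htd, h3']
            ring
          rw [← e1]
          refine Finset.sum_subset (Finset.subset_univ _) fun y _ hy => ?_
          have : kk R y = 2 := (H.two_or_three y).resolve_right fun h =>
            hy (mem_filter.mpr ⟨mem_univ y, h⟩)
          rw [this]; norm_num
        have hc3 : 3 ≤ Lg.card := by
          by_contra hcon
          have hcon' : Lg.card = 0 ∨ Lg.card = 1 ∨ Lg.card = 2 := by omega
          rcases hcon' with hc | hc | hc
          · rw [Finset.card_eq_zero] at hc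
            rw [hc, Finset.sum_empty] at hW
            have : (n : ℝ) = 3 := by nlinarith
            obtain ⟨y⟩ := hN
            have := hle y
            have := H.two_le y
            linarith
          · obtain ⟨y, hy⟩ := Finset.card_eq_one.mp hc
            rw [hy, Finset.sum_singleton] at hW
            have h5 := hle y
            have h6 := H.two_le y
            nlinarith
          · obtain ⟨y, z, hyz, hy⟩ := Finset.card_eq_two.mp hc
            rw [hy, Finset.sum_pair hyz] at hW
            have h5 := H.add_le hyz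
            rw [← hnd] at h5
            have h6 : 3 ≤ kk R y := by
              have : y ∈ Lg := by rw [hy]; simp
              exact (mem_filter.mp this).2
            have h7 : 3 ≤ kk R z := by
              have : z ∈ Lg := by rw [hy]; simp
              exact (mem_filter.mp this).2
            nlinarith [mul_nonneg (sub_nonneg.mpr h6) (sub_nonneg.mpr h7)]
        have : (3 : ℝ) ≤ Lg.card := by exact_mod_cast hc3
        linarith

/-- The local inequality. -/
theorem Lin.local_ge (H : Lin R) (hN : Nonempty Y) (hT : Thick R) (h : X → ℝ) :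
    (3 : ℝ) / 2 ≤ Phi R h := by
  have hX : (0 : ℝ) < Fintype.card X := by
    obtain ⟨l⟩ := hN
    obtain ⟨a, _⟩ := hT l
    exact_mod_cast Fintype.card_pos_iff.mpr ⟨a⟩
  set m := (∑ x, h x) / Fintype.card X with hm
  rw [← H.Phi_shift h m]
  refine H.local_centered hN hT _ ?_
  rw [Finset.sum_sub_distrib, Finset.sum_const, nsmul_eq_mul, Finset.card_univ, hm]
  field_simp
  ring

/-- Strict inequality, if all lines have two points and there are at least four points. -/
theorem Lin.local_gt (H : Lin R) (h : X → ℝ) (hk : ∀ y, kk R y = 2)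
    (hn : 4 ≤ Fintype.card X) : (3 : ℝ) / 2 < Phi R h := by
  have hn' : (4 : ℝ) ≤ Fintype.card X := by exact_mod_cast hn
  set m := (∑ x, h x) / Fintype.card X with hm
  rw [← H.Phi_shift h m]
  refine lt_of_lt_of_le ?_ (H.Phi_ge _ ?_ (by omega))
  · have h1 := H.sum_kk
    rw [Finset.sum_congr rfl (g := fun _ => (2 : ℝ)) (fun y _ => by rw [hk y]; norm_num),
      Finset.sum_const, nsmul_eq_mul, Finset.card_univ] at h1
    rw [Finset.sum_congr rfl (g := fun _ => (1 : ℝ)) (fun y _ => by rw [hk y]; norm_num),
      Finset.sum_const, nsmul_eq_mul, Finset.card_univ, mul_one]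
    have h2 : (Fintype.card Y : ℝ) = Fintype.card X * (Fintype.card X - 1) / 2 := by linarith
    rw [h2, lt_sub_iff_add_lt, lt_div_iff₀ (by linarith)]
    set n : ℝ := (Fintype.card X : ℝ)
    nlinarith [mul_nonneg (sub_nonneg.mpr hn') (sub_nonneg.mpr hn'), mul_nonneg (mul_nonneg
      (sub_nonneg.mpr hn') (sub_nonneg.mpr hn')) (sub_nonneg.mpr hn'), mul_nonneg (mul_nonneg
      (sub_nonneg.mpr hn') (sub_nonneg.mpr hn')) (mul_nonneg
      (sub_nonneg.mpr hn') (sub_nonneg.mpr hn'))]
  · rw [Finset.sum_sub_distrib, Finset.sum_const, nsmul_eq_mul, Finset.card_univ, hm]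
    field_simp
    ring

end Pool.Agent.Mason77
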