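import Pool.Agent.Mason77.Cases
import Pool.Agent.H27.Planar

/-!
# The points-lines-planes inequality for planar spaces
-/

open Finset

set_option linter.unusedSectionVars false

namespace Pool.Agent.Mason77

open Pool.Agent.H27

/-- The linear space of a planar space. -/
theorem lin_of_planar {P L Q : Type*} (S : Planar P L Q) : Lin S.inc where
  line := S.line_exists
  uniq := S.line_unique
  two := S.line_two

section balance

variable {X Y : Type*} [Fintype X] [Fintype Y] {R : X → Y → Prop}

/-- the operator `h ↦ Δ h + (∑ h)` -/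
noncomputable def Top (R : X → Y → Prop) : (X → ℝ) →ₗ[ℝ] (X → ℝ) where
  toFun h x := ∑ y, r R x y * (h x - xx R h y / kk R y) + ∑ z, h z
  map_add' g h := by
    funext x
    have e : ∀ y, xx R (g + h) y = xx R g y + xx R h y := by
      intro y
      unfold xx
      rw [← Finset.sum_add_distrib]
      refine Finset.sum_congr rfl fun z _ => ?_
      simp only [Pi.add_apply]; ring
    simp only [Pi.add_apply, e, Finset.sum_add_distrib]
    have e2 : ∀ y, r R x y * (g x + h x - (xx R g y + xx R h y) / kk R y) =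
        r R x y * (g x - xx R g y / kk R y) + r R x y * (h x - xx R h y / kk R y) := by
      intro y; ring
    rw [Finset.sum_congr rfl fun y _ => e2 y, Finset.sum_add_distrib]
    ring
  map_smul' c h := by
    funext x
    have e : ∀ y, xx R (c • h) y = c * xx R h y := by
      intro y
      unfold xx
      rw [Finset.mul_sum]
      refine Finset.sum_congr rfl fun z _ => ?_
      simp only [Pi.smul_apply, smul_eq_mul]; ring
    simp only [Pi.smul_apply, smul_eq_mul, e, RingHom.id_apply]
    rw [mul_add, Finset.mul_sum, Finset.mul_sum]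
    congr 1
    refine Finset.sum_congr rfl fun y _ => ?_
    ring

theorem Top_apply (h : X → ℝ) (x : X) :
    Top R h x = ∑ y, r R x y * (h x - xx R h y / kk R y) + ∑ z, h z := rfl

theorem Lin.sum_Top (H : Lin R) (h : X → ℝ) :
    ∑ x, Top R h x = Fintype.card X * ∑ z, h z := by
  simp only [Top_apply]
  rw [Finset.sum_add_distrib, Finset.sum_const, nsmul_eq_mul, Finset.card_univ, Finset.sum_comm]
  have e : ∀ y, ∑ x, r R x y * (h x - xx R h y / kk R y) = 0 := by
    intro y
    have hk := H.two_le y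
    have hk0 : kk R y ≠ 0 := by linarith
    have e1 : ∀ x, r R x y * (h x - xx R h y / kk R y) =
        r R x y * h x - r R x y * (xx R h y / kk R y) := by intro x; ring
    rw [Finset.sum_congr rfl fun x _ => e1 x, Finset.sum_sub_distrib, ← Finset.sum_mul]
    change xx R h y - kk R y * (xx R h y / kk R y) = 0
    field_simp
    ring
  rw [Finset.sum_congr rfl fun y _ => e y, Finset.sum_const_zero, zero_add]

theorem Lin.Top_injective (H : Lin R) : Function.Injective (Top R) := by
  rw [← LinearMap.ker_eq_bot, LinearMap.ker_eq_bot']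
  intro h hh
  rcases isEmpty_or_nonempty X with hX | hX
  · funext x; exact (hX.false x).elim
  have hc : (0 : ℝ) < Fintype.card X := by exact_mod_cast Fintype.card_pos
  have h0 : ∑ z, h z = 0 := by
    have h1 := H.sum_Top h
    rw [hh] at h1
    simp only [Pi.zero_apply, Finset.sum_const_zero] at h1
    rcases mul_eq_zero.mp h1.symm with h2 | h2
    · linarith
    · exact h2
  have h1 : ∀ x, ∑ y, r R x y * (h x - xx R h y / kk R y) = 0 := by
    intro x
    have := congrFun hh x
    rw [Top_apply, h0, add_zero] at this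
    exact this
  -- the energy
  have h2 : ∑ y, ∑ x, r R x y * (h x - xx R h y / kk R y) ^ 2 = 0 := by
    have e1 : ∀ y, ∑ x, r R x y * (h x - xx R h y / kk R y) ^ 2 =
        ∑ x, h x * (r R x y * (h x - xx R h y / kk R y)) := by
      intro y
      have hk := H.two_le y
      have hk0 : kk R y ≠ 0 := by linarith
      have e2 : ∀ x, r R x y * (h x - xx R h y / kk R y) ^ 2 =
          h x * (r R x y * (h x - xx R h y / kk R y)) -
          (xx R h y / kk R y) * (r R x y * h x) + (xx R h y / kk R y) ^ 2 * r R x y := by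
        intro x; ring
      rw [Finset.sum_congr rfl fun x _ => e2 x, Finset.sum_add_distrib, Finset.sum_sub_distrib,
        ← Finset.mul_sum, ← Finset.mul_sum]
      change _ - xx R h y / kk R y * xx R h y + (xx R h y / kk R y) ^ 2 * kk R y = _
      have e3 : xx R h y / kk R y * xx R h y = (xx R h y / kk R y) ^ 2 * kk R y := by
        field_simp
      rw [e3]
      ring
    rw [Finset.sum_congr rfl fun y _ => e1 y, Finset.sum_comm]
    refine Finset.sum_eq_zero fun x _ => ?_
    rw [← Finset.mul_sum, h1, mul_zero]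
  have h3 : ∀ x y, R x y → h x = xx R h y / kk R y := by
    intro x y hxy
    have h4 := (Finset.sum_eq_zero_iff_of_nonneg (fun y _ => Finset.sum_nonneg fun x _ =>
      mul_nonneg (r_nonneg R x y) (sq_nonneg (h x - xx R h y / kk R y)))).mp h2 y
      (Finset.mem_univ y)
    have h5 := (Finset.sum_eq_zero_iff_of_nonneg (fun x _ =>
      mul_nonneg (r_nonneg R x y) (sq_nonneg (h x - xx R h y / kk R y)))).mp h4 x
      (Finset.mem_univ x)
    rw [r_of hxy, one_mul] at h5
    have := pow_eq_zero_iff (two_ne_zero) |>.mp h5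
    linarith
  have h4 : ∀ a b, h a = h b := by
    intro a b
    by_cases hab : a = b
    · rw [hab]
    · obtain ⟨l, h5, h6⟩ := H.line a b hab
      rw [h3 a l h5, h3 b l h6]
  funext x
  have h5 : ∑ z, h z = Fintype.card X * h x := by
    rw [Finset.sum_congr rfl fun z _ => h4 z x]; simp
  rw [h0] at h5
  rcases mul_eq_zero.mp h5.symm with h6 | h6
  · linarith
  · exact h6

/-- There are weights with constant loads. -/
theorem Lin.exists_balanced (H : Lin R) (hX : 0 < Fintype.card X) :
    ∃ h : X → ℝ, ∀ x, cc R h x = (Fintype.card Y : ℝ) / Fintype.card X := by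
  have hc : (Fintype.card X : ℝ) ≠ 0 := by exact_mod_cast hX.ne'
  have hsurj : Function.Surjective (Top R) :=
    LinearMap.injective_iff_surjective.mp H.Top_injective
  set tau : X → ℝ := fun x => ∑ y, r R x y / kk R y with htau
  obtain ⟨h, hh⟩ := hsurj fun x => (Fintype.card Y : ℝ) / Fintype.card X - tau x
  have hst : ∑ x, tau x = Fintype.card Y := by
    rw [htau, Finset.sum_comm]
    have : ∀ y, ∑ x, r R x y / kk R y = 1 := by
      intro y
      have hk := H.two_le y
      have hk0 : kk R y ≠ 0 := by linarith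
      rw [← Finset.sum_div]
      change kk R y / kk R y = 1
      exact div_self hk0
    rw [Finset.sum_congr rfl fun y _ => this y]; simp
  have h0 : ∑ z, h z = 0 := by
    have h1 := H.sum_Top h
    rw [hh] at h1
    simp only [Finset.sum_sub_distrib, hst, Finset.sum_const, nsmul_eq_mul, Finset.card_univ] at h1
    have h2 : (Fintype.card X : ℝ) * ((Fintype.card Y : ℝ) / Fintype.card X) - Fintype.card Y = 0 := by
      field_simp
      ring
    rw [h2] at h1
    rcases mul_eq_zero.mp h1.symm with h3 | h3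
    · exact absurd h3 hc
    · exact h3
  refine ⟨h, fun x => ?_⟩
  have h1 := congrFun hh x
  rw [Top_apply, h0, add_zero] at h1
  have h2 : cc R h x = tau x + ∑ y, r R x y * (h x - xx R h y / kk R y) := by
    rw [htau]
    unfold cc ff
    rw [← Finset.sum_add_distrib]
    refine Finset.sum_congr rfl fun y _ => ?_
    ring
  rw [h2, h1]
  ring

/-- `∑ 1 / k` is at least `t ^ 2 / (n * (n - 1))`. -/
theorem Lin.sum_inv_ge (H : Lin R) : (Fintype.card Y : ℝ) ^ 2 ≤
    (Fintype.card X : ℝ) * (Fintype.card X - 1) * ∑ y, 1 / (kk R y * (kk R y - 1)) := by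
  have h1 := Finset.sum_mul_sq_le_sq_mul_sq (univ : Finset Y)
    (fun y => Real.sqrt (kk R y * (kk R y - 1)))
    (fun y => 1 / Real.sqrt (kk R y * (kk R y - 1)))
  have hpos : ∀ y, 0 < kk R y * (kk R y - 1) := by
    intro y
    have := H.two_le y
    nlinarith
  have e1 : ∑ y, Real.sqrt (kk R y * (kk R y - 1)) * (1 / Real.sqrt (kk R y * (kk R y - 1))) =
      Fintype.card Y := by
    have : ∀ y, Real.sqrt (kk R y * (kk R y - 1)) *
        (1 / Real.sqrt (kk R y * (kk R y - 1))) = 1 := by
      intro y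
      have := Real.sqrt_pos.mpr (hpos y)
      field_simp
    rw [Finset.sum_congr rfl fun y _ => this y]; simp
  have e2 : ∑ y, Real.sqrt (kk R y * (kk R y - 1)) ^ 2 =
      (Fintype.card X : ℝ) * (Fintype.card X - 1) := by
    rw [← H.sum_kk]
    exact Finset.sum_congr rfl fun y _ => Real.sq_sqrt (hpos y).le
  have e3 : ∑ y, (1 / Real.sqrt (kk R y * (kk R y - 1))) ^ 2 =
      ∑ y, 1 / (kk R y * (kk R y - 1)) := by
    refine Finset.sum_congr rfl fun y _ => ?_
    rw [div_pow, one_pow, Real.sq_sqrt (hpos y).le]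
  rw [e1, e2, e3] at h1
  exact h1

/-- the weights of a line -/
theorem Lin.inv_le (H : Lin R) (h : X → ℝ) (y : Y) : 1 / kk R y ≤ ∑ x, ff R h x y ^ 2 := by
  have hk := H.two_le y
  have h1 := Finset.sum_mul_sq_le_sq_mul_sq (univ : Finset X) (fun x => r R x y)
    (fun x => ff R h x y)
  have e1 : ∑ x, r R x y * ff R h x y = 1 := by
    rw [← H.sum_ff h y]
    refine Finset.sum_congr rfl fun x _ => ?_
    unfold ff
    rw [← mul_assoc, ← sq, r_sq]
  have e2 : ∑ x, r R x y ^ 2 = kk R y := by
    unfold kk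
    exact Finset.sum_congr rfl fun x _ => r_sq R x y
  rw [e1, e2, one_pow] at h1
  rw [div_le_iff₀ (by linarith)]
  linarith

end balance

section planes

variable {P L Q : Type*} [Fintype P] [Fintype L] [Fintype Q] (S : Planar P L Q)

theorem sum_subtype_of {X : Type*} [Fintype X] {p : X → Prop} [DecidablePred p] (g : X → ℝ)
    (hg : ∀ x, ¬ p x → g x = 0) : ∑ x : {x // p x}, g x = ∑ x, g x := by
  rw [← Fintype.sum_subtype_add_sum_subtype p g]
  rw [Finset.sum_eq_zero (s := (univ : Finset {x // ¬ p x})) (fun x _ => hg x x.2), add_zero]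

/-- the incidence relation inside a plane -/
def RQ (σ : Q) : {p // S.mem p σ} → {l // S.sub l σ} → Prop := fun p l => S.inc p l

theorem lin_plane (σ : Q) : Lin (RQ S σ) where
  line := by
    rintro ⟨a, ha⟩ ⟨b, hb⟩ hab
    have hab' : a ≠ b := fun h => hab (Subtype.ext h)
    obtain ⟨l, h1, h2⟩ := S.line_exists a b hab'
    exact ⟨⟨l, S.sub_of_mem a b l σ hab' ha hb h1 h2⟩, h1, h2⟩
  uniq := by
    rintro ⟨a, ha⟩ ⟨b, hb⟩ ⟨l, hl⟩ ⟨l', hl'⟩ hab h1 h2 h3 h4
    exact Subtype.ext (S.line_unique a b l l' (fun h => hab (Subtype.ext h)) h1 h2 h3 h4)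
  two := by
    rintro ⟨l, hl⟩
    obtain ⟨a, b, hab, h1, h2⟩ := S.line_two l
    exact ⟨⟨a, S.mem_of_sub l σ a hl h1⟩, ⟨b, S.mem_of_sub l σ b hl h2⟩,
      fun h => hab (Subtype.ext_iff.mp h), h1, h2⟩

theorem thick_plane (σ : Q) : Thick (RQ S σ) := by
  rintro ⟨l, hl⟩
  obtain ⟨c, hc, hcl⟩ := S.exists_off_line σ l
  exact ⟨⟨c, hc⟩, hcl⟩

theorem nonempty_plane (σ : Q) : Nonempty {l // S.sub l σ} := by
  obtain ⟨a, _, _, ha, _⟩ := S.plane_three σ
  obtain ⟨l, _, _, _, _, h, _⟩ := S.exists_two_lines σ a ha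
  exact ⟨⟨l, h⟩⟩

open Classical in
theorem kk_plane (σ : Q) (l : {l // S.sub l σ}) : kk (RQ S σ) l = kk S.inc (l : L) := by
  unfold kk
  rw [← sum_subtype_of (p := fun p => S.mem p σ) (fun x => r S.inc x (l : L))]
  · rfl
  · intro x hx
    exact r_not fun h => hx (S.mem_of_sub l σ x l.2 h)

open Classical in
theorem xx_plane (σ : Q) (h : P → ℝ) (l : {l // S.sub l σ}) :
    xx (RQ S σ) (fun p => h p) l = xx S.inc h (l : L) := by
  unfold xx
  rw [← sum_subtype_of (p := fun p => S.mem p σ) (fun x => r S.inc x (l : L) * h x)]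
  · rfl
  · intro x hx
    rw [r_not fun h => hx (S.mem_of_sub l σ x l.2 h), zero_mul]

open Classical in
theorem ff_plane (σ : Q) (h : P → ℝ) (p : {p // S.mem p σ}) (l : {l // S.sub l σ}) :
    ff (RQ S σ) (fun p => h p) p l = ff S.inc h (p : P) (l : L) := by
  unfold ff
  rw [kk_plane, xx_plane]
  rfl

open Classical in
/-- the quadratic form of a plane, as a sum over all points and lines -/
theorem Phi_plane (σ : Q) (h : P → ℝ) : Phi (RQ S σ) (fun p => h p) =
    ∑ p, ((∑ l, r S.sub l σ * ff S.inc h p l) ^ 2 -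
      ∑ l, r S.sub l σ * ff S.inc h p l ^ 2) := by
  unfold Phi cc
  rw [← sum_subtype_of (p := fun p => S.mem p σ) (fun p =>
    ((∑ l, r S.sub l σ * ff S.inc h p l) ^ 2 - ∑ l, r S.sub l σ * ff S.inc h p l ^ 2))]
  · refine Finset.sum_congr rfl fun p _ => ?_
    rw [← sum_subtype_of (p := fun l => S.sub l σ) (fun l => r S.sub l σ * ff S.inc h (p : P) l),
      ← sum_subtype_of (p := fun l => S.sub l σ)
        (fun l => r S.sub l σ * ff S.inc h (p : P) l ^ 2)]
    · simp only [ff_plane]
      have e : ∀ l : {l // S.sub l σ}, r S.sub (l : L) σ = 1 := fun l => r_of l.2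
      simp only [e, one_mul]
    · intro l hl
      rw [r_not hl, zero_mul]
    · intro l hl
      rw [r_not hl, zero_mul]
  · intro p hp
    have e : ∀ l, r S.sub l σ * ff S.inc h p l = 0 := by
      intro l
      by_cases h1 : S.sub l σ
      · have h2 : ¬ S.inc p l := fun h2 => hp (S.mem_of_sub l σ p h1 h2)
        unfold ff
        rw [r_not h2]; ring
      · rw [r_not h1, zero_mul]
    have e' : ∀ l, r S.sub l σ * ff S.inc h p l ^ 2 = 0 := by
      intro l
      rw [sq, ← mul_assoc, e, zero_mul]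
    simp only [e, e', Finset.sum_const_zero]
    norm_num

open Classical in
/-- The global identity. -/
theorem sum_Phi (h : P → ℝ) : ∑ σ, Phi (RQ S σ) (fun p => h p) =
    ∑ p, (cc S.inc h p ^ 2 - ∑ l, ff S.inc h p l ^ 2) := by
  simp only [Phi_plane]
  rw [Finset.sum_comm]
  refine Finset.sum_congr rfl fun p _ => ?_
  have e1 : ∀ σ, (∑ l, r S.sub l σ * ff S.inc h p l) ^ 2 - ∑ l, r S.sub l σ * ff S.inc h p l ^ 2 =
      ∑ l, ∑ l', if l = l' then 0 else
        ff S.inc h p l * ff S.inc h p l' * (r S.sub l σ * r S.sub l' σ) := by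
    intro σ
    rw [sq, Finset.sum_mul_sum, ← Finset.sum_sub_distrib]
    refine Finset.sum_congr rfl fun l _ => ?_
    have e2 : ∀ l', (if l = l' then (0 : ℝ) else
        ff S.inc h p l * ff S.inc h p l' * (r S.sub l σ * r S.sub l' σ)) =
        r S.sub l σ * ff S.inc h p l * (r S.sub l' σ * ff S.inc h p l') -
        if l = l' then r S.sub l σ * ff S.inc h p l ^ 2 else 0 := by
      intro l'
      split_ifs with hl
      · subst hl
        have := r_sq S.sub l σ
        linear_combination (-(ff S.inc h p l ^ 2)) * this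
      · ring
    rw [Finset.sum_congr rfl fun l' _ => e2 l', Finset.sum_sub_distrib, Finset.sum_ite_eq,
      if_pos (Finset.mem_univ l)]
  rw [Finset.sum_congr rfl fun σ _ => e1 σ, Finset.sum_comm]
  have e3 : cc S.inc h p ^ 2 - ∑ l, ff S.inc h p l ^ 2 =
      ∑ l, ∑ l', if l = l' then 0 else ff S.inc h p l * ff S.inc h p l' := by
    unfold cc
    rw [sq, Finset.sum_mul_sum, ← Finset.sum_sub_distrib]
    refine Finset.sum_congr rfl fun l _ => ?_
    have e2 : ∀ l', (if l = l' then (0 : ℝ) else ff S.inc h p l * ff S.inc h p l') =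
        ff S.inc h p l * ff S.inc h p l' - if l = l' then ff S.inc h p l ^ 2 else 0 := by
      intro l'
      split_ifs with hl
      · subst hl; ring
      · ring
    rw [Finset.sum_congr rfl fun l' _ => e2 l', Finset.sum_sub_distrib, Finset.sum_ite_eq,
      if_pos (Finset.mem_univ l)]
  rw [e3]
  refine Finset.sum_congr rfl fun l _ => ?_
  rw [Finset.sum_comm]
  refine Finset.sum_congr rfl fun l' _ => ?_
  split_ifs with hl
  · simp
  · rw [← Finset.mul_sum]
    by_cases h1 : S.inc p l
    · by_cases h2 : S.inc p l'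
      · obtain ⟨σ, ⟨h3, h4⟩, h5⟩ := S.exists_unique_plane p l l' h1 h2 hl
        have h6 : ∑ σ, r S.sub l σ * r S.sub l' σ = 1 := by
          rw [Finset.sum_eq_single σ]
          · rw [r_of h3, r_of h4]; norm_num
          · intro τ _ hτ
            by_cases h7 : S.sub l τ
            · by_cases h8 : S.sub l' τ
              · exact absurd (h5 τ ⟨h7, h8⟩) hτ
              · rw [r_not h8, mul_zero]
            · rw [r_not h7, zero_mul]
          · simp
        rw [h6, mul_one]
      · have : ff S.inc h p l' = 0 := by unfold ff; rw [r_not h2, zero_mul]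
        rw [this]; ring
    · have : ff S.inc h p l = 0 := by unfold ff; rw [r_not h1, zero_mul]
      rw [this]; ring

open Classical in
/-- The main inequality. -/
theorem main_ge (hn : 0 < Fintype.card P) :
    (Fintype.card P : ℝ) * ∑ l, 1 / kk S.inc l + 3 / 2 * Fintype.card P * Fintype.card Q ≤
      (Fintype.card L : ℝ) ^ 2 ∧
    ((Fintype.card P : ℝ) * ∑ l, 1 / kk S.inc l + 3 / 2 * Fintype.card P * Fintype.card Q =
      (Fintype.card L : ℝ) ^ 2 → (∀ l, kk S.inc l = 2) →
      ∀ σ : Q, Fintype.card {p // S.mem p σ} = 3) := by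
  have H := lin_of_planar S
  obtain ⟨h, hh⟩ := H.exists_balanced hn
  have hn' : (0 : ℝ) < Fintype.card P := by exact_mod_cast hn
  have h1 := sum_Phi S h
  rw [Finset.sum_sub_distrib] at h1
  have h2 : ∑ p, cc S.inc h p ^ 2 = (Fintype.card L : ℝ) ^ 2 / Fintype.card P := by
    simp only [hh]
    rw [Finset.sum_const, nsmul_eq_mul, Finset.card_univ]
    field_simp
  have h3 : ∑ l, 1 / kk S.inc l ≤ ∑ p, ∑ l, ff S.inc h p l ^ 2 := by
    rw [Finset.sum_comm]
    exact Finset.sum_le_sum fun l _ => H.inv_le h l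
  have hloc : ∀ σ, (3 : ℝ) / 2 ≤ Phi (RQ S σ) (fun p => h p) := fun σ =>
    (lin_plane S σ).local_ge (nonempty_plane S σ) (thick_plane S σ) _
  rw [h2] at h1
  have h5 : ∑ l, 1 / kk S.inc l + ∑ σ, Phi (RQ S σ) (fun p => h p) ≤
      (Fintype.card L : ℝ) ^ 2 / Fintype.card P := by linarith
  rw [le_div_iff₀ hn'] at h5
  constructor
  · have h4 : (3 : ℝ) / 2 * Fintype.card Q ≤ ∑ σ, Phi (RQ S σ) (fun p => h p) := by
      calc (3 : ℝ) / 2 * Fintype.card Q = ∑ _σ : Q, (3 : ℝ) / 2 := by
            rw [Finset.sum_const, nsmul_eq_mul, Finset.card_univ]; ring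
        _ ≤ _ := Finset.sum_le_sum fun σ _ => hloc σ
    nlinarith
  · intro heq hk σ
    by_contra hne
    have hcard : 4 ≤ Fintype.card {p // S.mem p σ} := by
      have h6 : 3 ≤ Fintype.card {p // S.mem p σ} := by
        obtain ⟨a, b, c, ha, hb, hc, hab, hcol⟩ := S.plane_three σ
        obtain ⟨l, hl1, hl2⟩ := S.line_exists a b hab
        have hcl := hcol l hl1 hl2
        have h7 : ({⟨a, ha⟩, ⟨b, hb⟩, ⟨c, hc⟩} : Finset {p // S.mem p σ}).card = 3 := by
          rw [Finset.card_eq_three]
          refine ⟨_, _, _, ?_, ?_, ?_, rfl⟩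
          · intro h; exact hab (Subtype.ext_iff.mp h)
          · intro h
            have h' : a = c := Subtype.ext_iff.mp h
            exact hcl (h' ▸ hl1)
          · intro h
            have h' : b = c := Subtype.ext_iff.mp h
            exact hcl (h' ▸ hl2)
        rw [← h7]
        exact Finset.card_le_univ _
      omega
    have hgt : (3 : ℝ) / 2 < Phi (RQ S σ) (fun p => h p) := by
      refine (lin_plane S σ).local_gt _ (fun l => ?_) hcard
      rw [kk_plane]
      exact hk l
    have h4 : (3 : ℝ) / 2 * Fintype.card Q < ∑ σ, Phi (RQ S σ) (fun p => h p) := by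
      calc (3 : ℝ) / 2 * Fintype.card Q = ∑ _σ : Q, (3 : ℝ) / 2 := by
            rw [Finset.sum_const, nsmul_eq_mul, Finset.card_univ]; ring
        _ < _ := Finset.sum_lt_sum (fun σ _ => hloc σ) ⟨σ, Finset.mem_univ σ, hgt⟩
    nlinarith

open Classical in
/-- The points-lines-planes inequality for planar spaces. -/
theorem mason (hn : 3 ≤ Fintype.card P) :
    3 * (Fintype.card P : ℝ) * (Fintype.card P - 1) / (2 * (Fintype.card P - 2)) *
      Fintype.card Q ≤ (Fintype.card L : ℝ) ^ 2 ∧
    (3 * (Fintype.card P : ℝ) * (Fintype.card P - 1) / (2 * (Fintype.card P - 2)) *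
      Fintype.card Q = (Fintype.card L : ℝ) ^ 2 → ∀ σ : Q, Fintype.card {p // S.mem p σ} = 3) := by
  have H := lin_of_planar S
  set n : ℝ := (Fintype.card P : ℝ) with hnd
  set t : ℝ := (Fintype.card L : ℝ) with htd
  set q : ℝ := (Fintype.card Q : ℝ) with hqd
  have hn' : (3 : ℝ) ≤ n := by rw [hnd]; exact_mod_cast hn
  obtain ⟨h1, h2⟩ := main_ge S (by omega)
  rw [← hnd, ← htd, ← hqd] at h1 h2
  have h3 := H.sum_inv_ge
  rw [← hnd, ← htd] at h3
  set A := ∑ l, 1 / kk S.inc l with hA
  set B := ∑ l, 1 / (kk S.inc l * (kk S.inc l - 1)) with hB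
  have hle : ∀ l, 1 / (kk S.inc l * (kk S.inc l - 1)) ≤ 1 / kk S.inc l := by
    intro l
    have := H.two_le l
    exact one_div_le_one_div_of_le (by linarith) (by nlinarith)
  have hBA : B ≤ A := Finset.sum_le_sum fun l _ => hle l
  have e0 : 3 * n * (n - 1) / (2 * (n - 2)) * q = (n - 1) / (n - 2) * (3 / 2 * n * q) := by
    have : n - 2 ≠ 0 := by linarith
    field_simp
  have hpos : 0 < (n - 1) / (n - 2) := div_pos (by linarith) (by linarith)
  have e1 : (n - 1) / (n - 2) * (t ^ 2 - t ^ 2 / (n - 1)) = t ^ 2 := by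
    have h4 : n - 2 ≠ 0 := by linarith
    have h5 : n - 1 ≠ 0 := by linarith
    field_simp
    ring
  have h4 : t ^ 2 / (n - 1) ≤ n * B := by
    rw [div_le_iff₀ (by linarith)]
    linarith
  have h5 : n * B ≤ n * A := mul_le_mul_of_nonneg_left hBA (by linarith)
  have h6 : 3 / 2 * n * q ≤ t ^ 2 - t ^ 2 / (n - 1) := by linarith
  rw [e0]
  constructor
  · calc (n - 1) / (n - 2) * (3 / 2 * n * q) ≤ (n - 1) / (n - 2) * (t ^ 2 - t ^ 2 / (n - 1)) :=
        mul_le_mul_of_nonneg_left h6 hpos.le
      _ = t ^ 2 := e1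
  · intro heq
    have h7 : 3 / 2 * n * q = t ^ 2 - t ^ 2 / (n - 1) := by
      rw [← e1] at heq
      exact mul_left_cancel₀ hpos.ne' heq
    have h8 : n * B = n * A := by linarith
    have h9 : B = A := mul_left_cancel₀ (by linarith) h8
    refine h2 (by linarith) ?_
    intro l
    have h10 := (Finset.sum_eq_sum_iff_of_le fun l _ => hle l).mp (by
      rw [← hA, ← hB]; exact h9) l (Finset.mem_univ l)
    have h11 := H.two_le l
    have h12 : kk S.inc l * (kk S.inc l - 1) = kk S.inc l := by
      have := congrArg (fun x => x⁻¹) h10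
      simpa only [one_div, inv_inv] using this
    nlinarith

end planes

end Pool.Agent.Mason77
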