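import Mathlib

/-!
# A quadratic inequality for linear spaces

`R x y` : the point `x` lies on the line `y`.
-/

open Finset

set_option linter.unusedSectionVars false

namespace Pool.Agent.Mason77

variable {X Y : Type*} [Fintype X] [Fintype Y]

open Classical in
/-- the incidence matrix -/
noncomputable def r (R : X → Y → Prop) (x : X) (y : Y) : ℝ := if R x y then 1 else 0

/-- the number of points on a line -/
noncomputable def kk (R : X → Y → Prop) (y : Y) : ℝ := ∑ x, r R x y

/-- the sum of `h` over a line -/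
noncomputable def xx (R : X → Y → Prop) (h : X → ℝ) (y : Y) : ℝ := ∑ x, r R x y * h x

/-- the weights -/
noncomputable def ff (R : X → Y → Prop) (h : X → ℝ) (x : X) (y : Y) : ℝ :=
  r R x y * (h x + (1 - xx R h y) / kk R y)

/-- the loads -/
noncomputable def cc (R : X → Y → Prop) (h : X → ℝ) (x : X) : ℝ := ∑ y, ff R h x y

/-- the degrees -/
noncomputable def tt (R : X → Y → Prop) (x : X) : ℝ := ∑ y, r R x y

theorem r_sq (R : X → Y → Prop) (x : X) (y : Y) : r R x y ^ 2 = r R x y := by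
  unfold r; split_ifs <;> norm_num

theorem r_nonneg (R : X → Y → Prop) (x : X) (y : Y) : 0 ≤ r R x y := by
  unfold r; split_ifs <;> norm_num

theorem r_of {R : X → Y → Prop} {x : X} {y : Y} (h : R x y) : r R x y = 1 := by
  unfold r; rw [if_pos h]

theorem r_not {R : X → Y → Prop} {x : X} {y : Y} (h : ¬ R x y) : r R x y = 0 := by
  unfold r; rw [if_neg h]

/-- A linear space. -/
structure Lin (R : X → Y → Prop) : Prop where
  line : ∀ a b, a ≠ b → ∃ l, R a l ∧ R b l
  uniq : ∀ a b l l', a ≠ b → R a l → R b l → R a l' → R b l' → l = l'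
  two : ∀ l, ∃ a b, a ≠ b ∧ R a l ∧ R b l

variable {R : X → Y → Prop}

theorem Lin.pair (H : Lin R) {a b : X} (hab : a ≠ b) : ∑ y, r R a y * r R b y = 1 := by
  classical
  obtain ⟨l, h1, h2⟩ := H.line a b hab
  rw [Finset.sum_eq_single l]
  · rw [r_of h1, r_of h2]; norm_num
  · intro y _ hy
    by_cases h3 : R a y
    · by_cases h4 : R b y
      · exact absurd (H.uniq a b y l hab h3 h4 h1 h2) hy
      · rw [r_not h4, mul_zero]
    · rw [r_not h3, zero_mul]
  · simp

theorem Lin.two_le (H : Lin R) (y : Y) : 2 ≤ kk R y := by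
  classical
  obtain ⟨a, b, hab, h1, h2⟩ := H.two y
  unfold kk
  have h3 : ∑ x ∈ ({a, b} : Finset X), r R x y ≤ ∑ x, r R x y :=
    Finset.sum_le_sum_of_subset_of_nonneg (Finset.subset_univ _) fun x _ _ => r_nonneg R x y
  rw [Finset.sum_pair hab, r_of h1, r_of h2] at h3
  linarith

/-- the basic identity -/
theorem Lin.sum_sq (H : Lin R) (h : X → ℝ) :
    ∑ y, xx R h y ^ 2 = ∑ x, (tt R x - 1) * h x ^ 2 + (∑ x, h x) ^ 2 := by
  classical
  have e1 : ∀ y, xx R h y ^ 2 = ∑ a, ∑ b, h a * h b * (r R a y * r R b y) := by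
    intro y
    rw [sq]
    unfold xx
    rw [Finset.sum_mul_sum]
    refine Finset.sum_congr rfl fun a _ => Finset.sum_congr rfl fun b _ => ?_
    ring
  rw [Finset.sum_congr rfl fun y _ => e1 y, Finset.sum_comm]
  have e2 : ∀ a, ∑ y, ∑ b, h a * h b * (r R a y * r R b y) =
      (tt R a - 1) * h a ^ 2 + h a * ∑ b, h b := by
    intro a
    rw [Finset.sum_comm]
    have e3 : ∀ b, ∑ y, h a * h b * (r R a y * r R b y) =
        h a * h b + if a = b then (tt R a - 1) * h a ^ 2 else 0 := by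
      intro b
      rw [← Finset.mul_sum]
      split_ifs with hab
      · subst hab
        have : ∑ y, r R a y * r R a y = tt R a := by
          unfold tt
          refine Finset.sum_congr rfl fun y _ => ?_
          rw [← sq, r_sq]
        rw [this]; ring
      · rw [H.pair hab]; ring
    rw [Finset.sum_congr rfl fun b _ => e3 b, Finset.sum_add_distrib, Finset.sum_ite_eq,
      if_pos (Finset.mem_univ a), ← Finset.mul_sum]
    ring
  rw [Finset.sum_congr rfl fun a _ => e2 a, Finset.sum_add_distrib, ← Finset.sum_mul, sq (∑ x, h x)]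

theorem Lin.sum_ff (H : Lin R) (h : X → ℝ) (y : Y) : ∑ x, ff R h x y = 1 := by
  have hk := H.two_le y
  have hk0 : kk R y ≠ 0 := by linarith
  have e1 : ∀ x, ff R h x y = r R x y * h x + r R x y * ((1 - xx R h y) / kk R y) := by
    intro x; unfold ff; ring
  rw [Finset.sum_congr rfl fun x _ => e1 x, Finset.sum_add_distrib, ← Finset.sum_mul]
  change xx R h y + kk R y * ((1 - xx R h y) / kk R y) = 1
  field_simp
  ring

theorem Lin.sum_ff_sq (H : Lin R) (h : X → ℝ) (y : Y) : ∑ x, ff R h x y ^ 2 =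
    ∑ x, r R x y * h x ^ 2 + (1 - xx R h y ^ 2) / kk R y := by
  have hk := H.two_le y
  have hk0 : kk R y ≠ 0 := by linarith
  set m := (1 - xx R h y) / kk R y with hm
  have e1 : ∀ x, ff R h x y ^ 2 = r R x y * h x ^ 2 + 2 * m * (r R x y * h x) + m ^ 2 * r R x y := by
    intro x
    unfold ff
    rw [mul_pow, r_sq]
    ring
  rw [Finset.sum_congr rfl fun x _ => e1 x, Finset.sum_add_distrib, Finset.sum_add_distrib,
    ← Finset.mul_sum, ← Finset.mul_sum]
  change ∑ x, r R x y * h x ^ 2 + 2 * m * xx R h y + m ^ 2 * kk R y = _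
  rw [hm]
  field_simp
  ring

theorem sum_r_mul (g : X → ℝ) : ∑ y : Y, ∑ x, r R x y * g x = ∑ x, tt R x * g x := by
  rw [Finset.sum_comm]
  refine Finset.sum_congr rfl fun x _ => ?_
  unfold tt
  rw [Finset.sum_mul]

theorem Lin.sum_cc (H : Lin R) (h : X → ℝ) : ∑ x, cc R h x = Fintype.card Y := by
  unfold cc
  rw [Finset.sum_comm, Finset.sum_congr rfl fun y _ => H.sum_ff h y]
  simp

theorem sum_cc_mul (h : X → ℝ) : ∑ x, cc R h x * h x =
    ∑ x, tt R x * h x ^ 2 + ∑ y, xx R h y * (1 - xx R h y) / kk R y := by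
  have e1 : ∀ x, cc R h x * h x = ∑ y, (r R x y * h x ^ 2 +
      r R x y * h x * ((1 - xx R h y) / kk R y)) := by
    intro x
    unfold cc ff
    rw [Finset.sum_mul]
    refine Finset.sum_congr rfl fun y _ => ?_
    ring
  rw [Finset.sum_congr rfl fun x _ => e1 x, Finset.sum_comm]
  have e2 : ∀ y : Y, ∑ x, (r R x y * h x ^ 2 + r R x y * h x * ((1 - xx R h y) / kk R y)) =
      ∑ x, r R x y * h x ^ 2 + xx R h y * (1 - xx R h y) / kk R y := by
    intro y
    rw [Finset.sum_add_distrib, ← Finset.sum_mul]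
    change _ + xx R h y * ((1 - xx R h y) / kk R y) = _
    rw [mul_div_assoc]
  rw [Finset.sum_congr rfl fun y _ => e2 y, Finset.sum_add_distrib, sum_r_mul]

/-- The quadratic form of a plane. -/
noncomputable def Phi (R : X → Y → Prop) (h : X → ℝ) : ℝ :=
  ∑ x, (cc R h x ^ 2 - ∑ y, ff R h x y ^ 2)

theorem Lin.Phi_eq (H : Lin R) (h : X → ℝ) (h0 : ∑ x, h x = 0) :
    Phi R h = ∑ x, (cc R h x - h x) ^ 2 +
      ∑ y, (xx R h y ^ 2 - (1 - xx R h y) ^ 2 / kk R y) := by
  unfold Phi
  rw [Finset.sum_sub_distrib, Finset.sum_comm (f := fun x y => ff R h x y ^ 2),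
    Finset.sum_congr rfl fun y _ => H.sum_ff_sq h y, Finset.sum_add_distrib, sum_r_mul]
  have e1 : ∑ x, (cc R h x - h x) ^ 2 = ∑ x, cc R h x ^ 2 - 2 * ∑ x, cc R h x * h x +
      ∑ x, h x ^ 2 := by
    rw [Finset.mul_sum, ← Finset.sum_sub_distrib, ← Finset.sum_add_distrib]
    refine Finset.sum_congr rfl fun x _ => ?_
    ring
  rw [e1, sum_cc_mul, Finset.sum_sub_distrib, H.sum_sq h, h0]
  have e2 : ∑ x, (tt R x - 1) * h x ^ 2 = ∑ x, tt R x * h x ^ 2 - ∑ x, h x ^ 2 := by
    rw [← Finset.sum_sub_distrib]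
    refine Finset.sum_congr rfl fun x _ => ?_
    ring
  have e3 : ∑ y, (1 - xx R h y ^ 2) / kk R y = 2 * ∑ y, xx R h y * (1 - xx R h y) / kk R y +
      ∑ y, (1 - xx R h y) ^ 2 / kk R y := by
    rw [Finset.mul_sum, ← Finset.sum_add_distrib]
    refine Finset.sum_congr rfl fun y _ => ?_
    ring
  rw [e2, e3]
  ring

/-- The weights depend on the differences of `h` only. -/
theorem Lin.ff_shift (H : Lin R) (h : X → ℝ) (m : ℝ) (x : X) (y : Y) :
    ff R (fun z => h z - m) x y = ff R h x y := by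
  have hk := H.two_le y
  have hk0 : kk R y ≠ 0 := by linarith
  have e1 : xx R (fun z => h z - m) y = xx R h y - m * kk R y := by
    unfold xx kk
    rw [Finset.mul_sum, ← Finset.sum_sub_distrib]
    refine Finset.sum_congr rfl fun z _ => ?_
    ring
  unfold ff
  rw [e1]
  field_simp
  ring

theorem Lin.Phi_shift (H : Lin R) (h : X → ℝ) (m : ℝ) : Phi R (fun z => h z - m) = Phi R h := by
  unfold Phi cc
  simp only [H.ff_shift]

theorem bracket {k x : ℝ} (hk : 2 ≤ k) : -(1 / (k - 1)) ≤ x ^ 2 - (1 - x) ^ 2 / k := by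
  have hk0 : 0 < k := by linarith
  have hk1 : 0 < k - 1 := by linarith
  have e : x ^ 2 - (1 - x) ^ 2 / k + 1 / (k - 1) = ((k - 1) * x + 1) ^ 2 / (k * (k - 1)) := by
    field_simp
    ring
  have : 0 ≤ ((k - 1) * x + 1) ^ 2 / (k * (k - 1)) := by positivity
  linarith

theorem Lin.sq_le (H : Lin R) (h : X → ℝ) (h0 : ∑ x, h x = 0) (hn : 0 < Fintype.card X) :
    (Fintype.card Y : ℝ) ^ 2 / Fintype.card X ≤ ∑ x, (cc R h x - h x) ^ 2 := by
  have h1 := sq_sum_le_card_mul_sum_sq (s := (Finset.univ : Finset X))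
    (f := fun x => cc R h x - h x)
  rw [Finset.sum_sub_distrib, H.sum_cc, h0, sub_zero, Finset.card_univ] at h1
  rw [div_le_iff₀ (by exact_mod_cast hn)]
  linarith

/-- The general lower bound. -/
theorem Lin.Phi_ge (H : Lin R) (h : X → ℝ) (h0 : ∑ x, h x = 0) (hn : 0 < Fintype.card X) :
    (Fintype.card Y : ℝ) ^ 2 / Fintype.card X - ∑ y, 1 / (kk R y - 1) ≤ Phi R h := by
  rw [H.Phi_eq h h0]
  have h1 := H.sq_le h h0 hn
  have h2 : ∑ y, -(1 / (kk R y - 1)) ≤ ∑ y, (xx R h y ^ 2 - (1 - xx R h y) ^ 2 / kk R y) :=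
    Finset.sum_le_sum fun y _ => bracket (H.two_le y)
  rw [Finset.sum_neg_distrib] at h2
  linarith

end Pool.Agent.Mason77
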